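import Mathlib
import Pool.Agent.Work.MP_79d1ba_al.Defs
import Pool.Agent.Work.MP_79d1ba_al.Proof

/-!
# Simplicity of the antisymmetric part `V_-` of `St ⊗ St` for `SL₂` over an algebraic closure of `F_p`

`k` is any field of characteristic zero, `K` any algebraic closure of the field with `p` elements,
`G = SL₂(K)`.  The definitions are in `Pool/Agent/Work/MP_79d1ba_al/Defs.lean`.
-/

set_option autoImplicit false

open scoped TensorProduct MatrixGroups
open Pool.Agent.Work.MP_79d1ba_al

namespace Pool.Agent.Results.MP_79d1ba_al.VMinusSimple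

/-- **`V_-` is a simple `kG`-module.**  It is stable under `G`, it is nonzero, and every
`G`-stable subspace of it is zero or all of `V_-`. -/
theorem result (p : ℕ) [Fact p.Prime] (K : Type*) [Field K] [Algebra (ZMod p) K]
    [IsAlgClosure (ZMod p) K] (k : Type*) [Field k] [CharZero k] :
    (∀ g : SL(2, K), ∀ v ∈ Vminus k K, actStSt k K g v ∈ Vminus k K) ∧
    Vminus k K ≠ ⊥ ∧
    ∀ W : Submodule k (StSt k K), W ≤ Vminus k K →
      (∀ g : SL(2, K), ∀ w ∈ W, actStSt k K g w ∈ W) → W = ⊥ ∨ W = Vminus k K :=
  final p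

end Pool.Agent.Results.MP_79d1ba_al.VMinusSimple
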